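import Pool.Agent.W896.FD.Sum3

/-!
# 3SUM with sum zero, and circuits of small formal degree
-/

set_option autoImplicit false
set_option maxHeartbeats 1000000

open Finset

namespace Pool.Agent.X240.FD.Zero

open Pool.Agent.W896.RK Pool.Agent.W896.HP Pool.Agent.W896.FD Pool.Agent.W896.FD.Star
open Pool.Agent.W896.FD.Tri (Mt mt_ne mt_symm mt_unique grS_0 grS_2)
open Pool.Agent.W896.FD.OV (pt pt_eq pt_other pt_inj)
open Pool.Agent.W896.FD.Sum3 (val hf tb fr3 inst3 lb nu inst3_some cls nu_le nu_inj key)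

variable {n m b w : ℕ}

/-- `n` different integers in `[-n ^ 4, n ^ 4]`. -/
def Valid (x : Fin n × Option (Fin w) → Bool) : Prop :=
  (∀ i, |val x i| ≤ (n : ℤ) ^ 4) ∧ Function.Injective (val x)

/-- There are three numbers with different indices and sum zero. -/
def Yes (x : Fin n × Option (Fin w) → Bool) : Prop :=
  ∃ i j l : Fin n, i ≠ j ∧ i ≠ l ∧ j ≠ l ∧ val x i + val x j + val x l = 0

/-- The fixed bits: the sign of the number `2 m` is changed. -/
noncomputable def tb0 (c : Fin b × Fin 4 ↪ Fin m) (ρ : Equiv.Perm (Fin m))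
    (v : Fin n × Option (Fin (w + 1))) : Bool :=
  match v.2 with
  | none => decide (v.1.val = 2 * m)
  | some _ => tb c ρ v

/-- The instance. -/
noncomputable def inst0 (n w : ℕ) (c : Fin b × Fin 4 ↪ Fin m) (ρ : Equiv.Perm (Fin m))
    (z z' : Fin b → Bool) : Fin n × Option (Fin (w + 1)) → Bool :=
  inI true (fr3 m) (fun ρ => tb0 c ρ) c ρ z z'

theorem inst0_none (c : Fin b × Fin 4 ↪ Fin m) (ρ : Equiv.Perm (Fin m)) (z z' : Fin b → Bool)
    (i : Fin n) : inst0 n w c ρ z z' (i, none) = decide (i.val = 2 * m) := by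
  unfold inst0 inI fr3 tb0
  rfl

theorem inst0_some (c : Fin b × Fin 4 ↪ Fin m) (ρ : Equiv.Perm (Fin m)) (z z' : Fin b → Bool)
    (i : Fin n) (j : Fin (w + 1)) :
    inst0 n w c ρ z z' (i, some j) = (nu c ρ z z' i.val).testBit j.val := by
  rw [← inst3_some]
  rfl

theorem val_inst0 (c : Fin b × Fin 4 ↪ Fin m) (ρ : Equiv.Perm (Fin m)) (z z' : Fin b → Bool)
    (i : Fin n) (hi : nu c ρ z z' i.val < 2 ^ (w + 1)) :
    val (inst0 n w c ρ z z') i =
      if i.val = 2 * m then -(nu c ρ z z' i.val : ℤ) else (nu c ρ z z' i.val : ℤ) := by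
  unfold Pool.Agent.W896.FD.Sum3.val
  rw [inst0_none]
  have h : (fun j => inst0 n w c ρ z z' (i, some j)) =
      fun j : Fin (w + 1) => (nu c ρ z z' i.val).testBit j.val := by
    funext j
    exact inst0_some c ρ z z' i j
  rw [h, Nat.ofBits_testBit, Nat.mod_eq_of_lt hi]
  by_cases h1 : i.val = 2 * m
  · simp [h1]
  · simp [h1]

theorem no0 (hn : n ≤ 2 * m + 2) (hw : 16 * (8 * m + 8) < 2 ^ (w + 1))
    (c : Fin b × Fin 4 ↪ Fin m) (ρ : Equiv.Perm (Fin m)) (z : Fin b → Bool) :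
    ¬ Yes (inst0 n w c ρ z z) := by
  rintro ⟨i, j, l, hij, hil, hjl, h⟩
  rw [val_inst0 c ρ z z i ((nu_le hn c ρ z z i).2.trans_lt hw),
    val_inst0 c ρ z z j ((nu_le hn c ρ z z j).2.trans_lt hw),
    val_inst0 c ρ z z l ((nu_le hn c ρ z z l).2.trans_lt hw)] at h
  have p1 := (nu_le hn c ρ z z i).1
  have p2 := (nu_le hn c ρ z z j).1
  have p3 := (nu_le hn c ρ z z l).1
  have hij' : i.val ≠ j.val := fun h => hij (Fin.ext h)
  have hil' : i.val ≠ l.val := fun h => hil (Fin.ext h)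
  have hjl' : j.val ≠ l.val := fun h => hjl (Fin.ext h)
  have main : ∃ v : Fin m, grS true c z z (ρ.symm v) = true ∧
      grS true c z z (ρ.symm (pt c ρ v)) = true := by
    by_cases h1 : i.val = 2 * m
    · have h2 : j.val ≠ 2 * m := by omega
      have h3 : l.val ≠ 2 * m := by omega
      rw [if_pos h1, if_neg h2, if_neg h3] at h
      exact key hn c ρ z z hjl (l := i) (by omega)
    · by_cases h2 : j.val = 2 * m
      · have h3 : l.val ≠ 2 * m := by omega
        rw [if_neg h1, if_pos h2, if_neg h3] at h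
        exact key hn c ρ z z hil (l := j) (by omega)
      · by_cases h3 : l.val = 2 * m
        · rw [if_neg h1, if_neg h2, if_pos h3] at h
          exact key hn c ρ z z hij (l := l) (by omega)
        · rw [if_neg h1, if_neg h2, if_neg h3] at h
          omega
  obtain ⟨v, hv1, hv2⟩ := main
  by_cases hv : ∃ u, Mt c ρ v u
  · obtain ⟨u, hu⟩ := hv
    rw [pt_eq hu] at hv2
    obtain ⟨q, ⟨e1, e2⟩ | ⟨e1, e2⟩⟩ := hu
    · rw [e1, Equiv.symm_apply_apply, grS_0] at hv1
      rw [e2, Equiv.symm_apply_apply, grS_2, hv1] at hv2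
      exact Bool.noConfusion hv2
    · rw [e1, Equiv.symm_apply_apply, grS_2] at hv1
      rw [e2, Equiv.symm_apply_apply, grS_0] at hv2
      rw [hv2] at hv1
      exact Bool.noConfusion hv1
  · -- an unmatched position has the bit zero
    have h0 : grS true c z z (ρ.symm v) = false := by
      unfold grS
      rw [fill_other]
      rintro (q | q) hq
      · apply hv
        refine ⟨ρ (c (q, 2)), q, Or.inl ⟨?_, rfl⟩⟩
        change c (q, 0) = ρ.symm v at hq
        rw [hq, Equiv.apply_symm_apply]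
      · apply hv
        refine ⟨ρ (c (q, 0)), q, Or.inr ⟨?_, rfl⟩⟩
        change c (q, 2) = ρ.symm v at hq
        rw [hq, Equiv.apply_symm_apply]
    rw [h0] at hv1
    exact Bool.noConfusion hv1

theorem yes0 (hn1 : 2 * m + 1 ≤ n) (hn : n ≤ 2 * m + 2) (hw : 16 * (8 * m + 8) < 2 ^ (w + 1))
    (c : Fin b × Fin 4 ↪ Fin m) (ρ : Equiv.Perm (Fin m)) (z z' : Fin b → Bool) {q : Fin b}
    (hz : z q = true) (hz' : z' q = false) : Yes (inst0 n w c ρ z z') := by
  obtain ⟨v, hv⟩ : ∃ v, v = ρ (c (q, 0)) := ⟨_, rfl⟩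
  obtain ⟨u, hu⟩ : ∃ u, u = ρ (c (q, 2)) := ⟨_, rfl⟩
  have hp : pt c ρ u = v := pt_eq ⟨q, Or.inr ⟨hu, hv⟩⟩
  have hgv : grS true c z z' (ρ.symm v) = true := by
    rw [hv, Equiv.symm_apply_apply, grS_0, hz]
  have hgu : grS true c z z' (ρ.symm u) = true := by
    rw [hu, Equiv.symm_apply_apply, grS_2, hz']; rfl
  have h1 := v.isLt
  have h2 := u.isLt
  refine ⟨⟨v.val, by omega⟩, ⟨m + u.val, by omega⟩, ⟨2 * m, by omega⟩, ?_, ?_, ?_, ?_⟩
  · intro h; have := congrArg Fin.val h; simp only at this; omega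
  · intro h; have := congrArg Fin.val h; simp only at this; omega
  · intro h; have := congrArg Fin.val h; simp only at this; omega
  rw [val_inst0 c ρ z z' _ ((nu_le hn c ρ z z' _).2.trans_lt hw),
    val_inst0 c ρ z z' _ ((nu_le hn c ρ z z' _).2.trans_lt hw),
    val_inst0 c ρ z z' _ ((nu_le hn c ρ z z' _).2.trans_lt hw)]
  have e1 : nu c ρ z z' v.val = 8 * m + 8 + 4 * v.val + 1 := by
    rcases cls hn c ρ z z' ⟨v.val, by omega⟩ with ⟨t, ht, h⟩ | ⟨t, ht, h⟩ | ⟨ht, h⟩ | ⟨ht, h⟩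
    · simp only at ht h
      rw [← Fin.ext ht, hgv] at h
      rw [h]; rfl
    · simp only at ht; omega
    · simp only at ht; omega
    · simp only at ht; omega
  have e2 : nu c ρ z z' (m + u.val) = 3 * (8 * m + 8) + 4 * (m - v.val) + 1 := by
    rcases cls hn c ρ z z' ⟨m + u.val, by omega⟩ with ⟨t, ht, h⟩ | ⟨t, ht, h⟩ | ⟨ht, h⟩ | ⟨ht, h⟩
    · simp only at ht; have := t.isLt; omega
    · simp only at ht h
      have ht' : u.val = t.val := by omega
      rw [← Fin.ext ht', hgu, hp] at h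
      rw [h]; rfl
    · simp only at ht; omega
    · simp only at ht; omega
  have e3 : nu c ρ z z' (2 * m) = 4 * (8 * m + 8) + 4 * m + 2 := by
    rcases cls hn c ρ z z' ⟨2 * m, by omega⟩ with ⟨t, ht, h⟩ | ⟨t, ht, h⟩ | ⟨ht, h⟩ | ⟨ht, h⟩
    · simp only at ht; have := t.isLt; omega
    · simp only at ht; have := t.isLt; omega
    · exact h
    · simp only at ht; omega
  simp only [e1, e2, e3, if_true]
  rw [if_neg (by omega), if_neg (by omega)]
  have h3 : v.val ≤ m := h1.le
  push_cast [Nat.cast_sub h3]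
  ring

theorem valid0 (hn : n ≤ 2 * m + 2) (hw : 16 * (8 * m + 8) < 2 ^ (w + 1))
    (hn3 : 16 * (8 * m + 8) ≤ n ^ 4)
    (c : Fin b × Fin 4 ↪ Fin m) (ρ : Equiv.Perm (Fin m)) (z z' : Fin b → Bool) :
    Valid (inst0 n w c ρ z z') := by
  have hv : ∀ i, val (inst0 n w c ρ z z') i = if i.val = 2 * m then -(nu c ρ z z' i.val : ℤ)
      else (nu c ρ z z' i.val : ℤ) := fun i =>
    val_inst0 c ρ z z' i ((nu_le hn c ρ z z' i).2.trans_lt hw)
  constructor
  · intro i
    have h1 : |val (inst0 n w c ρ z z') i| = (nu c ρ z z' i.val : ℤ) := by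
      rw [hv]
      split_ifs
      · rw [abs_neg, abs_of_nonneg (by positivity)]
      · rw [abs_of_nonneg (by positivity)]
    rw [h1]
    have := (nu_le hn c ρ z z' i).2.trans hn3
    exact_mod_cast this
  · intro i j h
    have p1 := (nu_le hn c ρ z z' i).1
    have p2 := (nu_le hn c ρ z z' j).1
    rw [hv, hv] at h
    by_cases h1 : i.val = 2 * m
    · by_cases h2 : j.val = 2 * m
      · exact Fin.ext (by omega)
      · rw [if_pos h1, if_neg h2] at h
        omega
    · by_cases h2 : j.val = 2 * m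
      · rw [if_neg h1, if_pos h2] at h
        omega
      · rw [if_neg h1, if_neg h2] at h
        exact nu_inj hn c ρ z z' (by exact_mod_cast h)

/-- **3SUM, sum zero.** -/
theorem sum0 (k n w : ℕ) (hw : n ^ 4 < 2 ^ (w + 1))
    (R : Type) [Fintype R] [Nonempty R] (U : R → Circ (Fin n × Option (Fin (w + 1))))
    (hU : ∀ r x, Valid x → (U r).Val x (U r).out → ¬ Yes x)
    (hc : ∀ x, Valid x → ¬ Yes x →
      Nat.card R ≤ 2 ^ (n / 2 ^ (240 * (k + 1))) * Nat.card {r // (U r).Val x (U r).out})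
    (hdeg : ∀ r, ∃ f : (U r).G → Fin n × Option (Fin (w + 1)) → ℕ, IsDeg (U r) id f ∧
      ∑ i, f (U r).out (i, some 0) ≤ k * n) :
    ∃ r, n ≤ 2 ^ (240 * (k + 1)) * (Nat.log 2 (Fintype.card (U r).G) + 1) := by
  classical
  obtain ⟨D, hD⟩ : ∃ D, D = 2 ^ (240 * (k + 1)) := ⟨_, rfl⟩
  obtain ⟨E, hE⟩ : ∃ E, E = 2 ^ (60 * (4 * k + 1)) := ⟨_, rfl⟩
  have hDE : D = 2 ^ 180 * E := by
    rw [hD, hE, ← pow_add]; congr 1; ring
  have hE1 : 1 ≤ E := by rw [hE]; exact Nat.one_le_two_pow
  have hDbig : 2 ^ 180 ≤ D := by rw [hDE]; exact Nat.le_mul_of_pos_right _ hE1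
  rw [← hD] at hc ⊢
  rcases Nat.lt_or_ge n D with hnD | hnD
  · obtain ⟨r⟩ := (inferInstance : Nonempty R)
    exact ⟨r, hnD.le.trans (Nat.le_mul_of_pos_right _ (by omega))⟩
  obtain ⟨m, hm⟩ : ∃ m, m = (n - 1) / 2 := ⟨_, rfl⟩
  have hn1 : 2 * m + 1 ≤ n := by omega
  have hn : n ≤ 2 * m + 2 := by omega
  have hn4 : n ≤ 4 * m := by omega
  obtain ⟨b, hb⟩ : ∃ b, b = m / 4 := ⟨_, rfl⟩
  have hb1 : m < 4 * (b + 1) := by rw [hb]; exact Nat.lt_mul_div_succ m (by norm_num)
  have hb2 : 4 * b ≤ m := by rw [hb]; exact Nat.mul_div_le _ _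
  obtain ⟨c⟩ : Nonempty (Fin b × Fin 4 ↪ Fin m) := by
    apply Function.Embedding.nonempty_of_card_le
    rw [Fintype.card_prod, Fintype.card_fin, Fintype.card_fin, Fintype.card_fin]
    omega
  have hn3 : 16 * (8 * m + 8) ≤ n ^ 4 := by
    have h1 : 16 * (8 * m + 8) ≤ 2 ^ 10 * n := by omega
    have h2 : 2 ^ 10 ≤ n := by omega
    calc 16 * (8 * m + 8) ≤ 2 ^ 10 * n := h1
      _ ≤ n * n := Nat.mul_le_mul_right _ h2
      _ = n ^ 2 := by ring
      _ ≤ n ^ 4 := Nat.pow_le_pow_right (by omega) (by norm_num)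
  have hw' : 16 * (8 * m + 8) < 2 ^ (w + 1) := hn3.trans_lt hw
  have hdiv : n / D ≤ m / E := by
    rw [Nat.le_div_iff_mul_le (by omega)]
    have h1 : n / D * D ≤ n := Nat.div_mul_le_self _ _
    rw [hDE] at h1
    have h2 : n / D * (2 ^ 180 * E) = 2 ^ 180 * (n / D * E) := by ring
    rw [hDE] at h2 ⊢
    rw [h2] at h1
    omega
  obtain ⟨r, hr⟩ := finalI (ν := true) (4 * k) (n := m) (b := b) (by omega) (fr3 m)
    (fun ρ => tb0 c ρ) c
    (fun ρ z z' => ¬ Yes (inst0 n w c ρ z z')) 0 (by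
      rw [vol_zero]
      exact Nat.one_le_two_pow) (by
      rintro ρ z z' h ⟨e1, e2⟩
      unfold dst at h
      obtain ⟨i, hi⟩ := card_pos.1 h
      have hi' := (mem_filter.1 hi).2
      cases hz : z i with
      | true =>
        cases hz' : z' i with
        | true => exact hi' (by rw [hz, hz'])
        | false => exact e1 (yes0 hn1 hn hw' c ρ z z' hz hz')
      | false =>
        cases hz' : z' i with
        | true => exact e2 (yes0 hn1 hn hw' c ρ z' z hz' hz)
        | false => exact hi' (by rw [hz, hz'])) R U (by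
      intro r ρ z z' h
      exact hU r _ (valid0 hn hw' hn3 c ρ z z') h) (by
      intro ρ z
      refine (hc _ (valid0 hn hw' hn3 c ρ z z) (no0 hn hw' c ρ z)).trans
        (Nat.mul_le_mul_right _ (Nat.pow_le_pow_right (by norm_num) ?_))
      rw [← hE]
      exact hdiv) (by
      intro r
      obtain ⟨f, hf1, hf2⟩ := hdeg r
      refine ⟨f, hf1, ?_⟩
      calc ∑ v with fr3 (w := w) (n := n) m v ≠ none, f (U r).out v ≤
          ∑ v ∈ (univ : Finset (Fin n)).image (fun i => (i, some (0 : Fin (w + 1)))),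
            f (U r).out v := by
            apply sum_le_sum_of_subset
            rintro ⟨i, j⟩ hv
            rw [mem_filter] at hv
            rw [mem_image]
            refine ⟨i, mem_univ _, ?_⟩
            have h1 := hv.2
            unfold fr3 at h1
            cases j with
            | none => exact absurd rfl h1
            | some j =>
              simp only at h1
              by_cases hj : j = 0
              · rw [hj]
              · rw [if_neg hj] at h1
                exact absurd rfl h1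
        _ = ∑ i, f (U r).out (i, some 0) := sum_image (by
            intro i _ j _ h
            exact (Prod.mk.injEq _ _ _ _ ▸ h).1)
        _ ≤ k * n := hf2
        _ ≤ k * (4 * m) := Nat.mul_le_mul_left _ hn4
        _ = 4 * k * m := by ring)
  refine ⟨r, ?_⟩
  rw [← hE] at hr
  calc n ≤ 4 * m := hn4
    _ ≤ 4 * (E * (Nat.log 2 (Fintype.card (U r).G) + 1)) := Nat.mul_le_mul_left _ hr
    _ = 4 * E * (Nat.log 2 (Fintype.card (U r).G) + 1) := by ring
    _ ≤ D * (Nat.log 2 (Fintype.card (U r).G) + 1) := by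
        apply Nat.mul_le_mul_right
        rw [hDE]
        exact Nat.mul_le_mul_right _ (by norm_num)

end Pool.Agent.X240.FD.Zero
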